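import Pool.Agent.helper83.P2.SpecS0

/-! Row p2:SMX (MP_063734_an): the maximum principle -/

set_option autoImplicit false

namespace Pool.Agent.P2

open Metric Filter Topology MeasureTheory
open Pool.Agent.helper37.QA

theorem SMX_n2_pos {k : ℕ} {Z : Fin (k + 1) → ℂ} (h : Z ≠ 0) : 0 < n2 Z := by
  unfold n2
  rw [norm_pos_iff]
  intro h0
  apply h
  have h1 := congrArg WithLp.ofLp h0
  exact h1

theorem SMX_n2_smul {k : ℕ} (c : ℂ) (Z : Fin (k + 1) → ℂ) : n2 (c • Z) = ‖c‖ * n2 Z := by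
  unfold n2
  rw [WithLp.toLp_smul, norm_smul]

/-- the maximum principle for the euclidean norm -/
theorem SMX_max {k : ℕ} (R : ℂ → (Fin (k + 1) → ℂ)) (hR : DifferentiableOn ℂ R (ball 0 1))
    (hm : ∀ t ∈ ball (0 : ℂ) 1, n2 (R t) ≤ n2 (R 0)) : ∀ t ∈ ball (0 : ℂ) 1, R t = R 0 := by
  have hG : DifferentiableOn ℂ (fun t => (WithLp.toLp 2 (R t) : EuclideanSpace ℂ (Fin (k + 1)))) (ball 0 1) := by
    have h1 := ((PiLp.continuousLinearEquiv 2 ℂ (fun _ : Fin (k + 1) => ℂ)).symm.differentiable).comp_differentiableOn hR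
    exact h1
  have hmx : IsMaxOn (norm ∘ (fun t => (WithLp.toLp 2 (R t) : EuclideanSpace ℂ (Fin (k + 1))))) (ball (0 : ℂ) 1) 0 :=
    fun t ht => hm t ht
  have h := Complex.eqOn_of_isPreconnected_of_isMaxOn_norm (convex_ball (0 : ℂ) 1).isPreconnected isOpen_ball hG
    (mem_ball_self one_pos) hmx
  intro t ht
  have h1 := congrArg WithLp.ofLp (h ht)
  exact h1

theorem SMX (hSGR : SGR_stmt) (hSLF : SLF_stmt) (hSUL : SUL_stmt) : SMX_stmt := by
  intro k d hd f U u C hU hG hH e ρ hρ hρU Z0 b h0 hfix hdisc hmax t ht h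
  obtain ⟨g1, g2, -, -⟩ := hSGR k d hd f U u C hU hG
  obtain ⟨hh, l1, l2, l3⟩ := hSLF k d hd f U u C hU hG hH Z0 b hdisc
  obtain ⟨R, r1, r2, -⟩ := hSUL (k + 1) e hh (Real.exp C) (Real.exp_pos C) l1 (fun n t ht => (l3 n t ht).2.2.2.1)
  -- lifts are nonzero
  have hRne : ∀ t ∈ ball (0 : ℂ) 1, R t ≠ 0 := by
    intro t ht h
    have h1 : Real.exp (-C) ≤ ‖R t‖ := by
      apply ge_of_tendsto (r2 t ht).norm
      exact Filter.Eventually.of_forall fun n => (l3 n t ht).2.2.1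
    rw [h, norm_zero] at h1
    have := Real.exp_pos (-C)
    linarith
  have hhne : ∀ n, ∀ t ∈ ball (0 : ℂ) 1, hh n t ≠ 0 := by
    intro n t ht h
    have h1 := (l3 n t ht).2.2.1
    rw [h, norm_zero] at h1
    have := Real.exp_pos (-C)
    linarith
  have hZne : ∀ t ∈ ball (0 : ℂ) 1, Z0 + t • b ≠ 0 := fun t ht => (hdisc t (ball_subset_closedBall ht)).1
  -- the limits
  have hlim : ∀ (t : ℂ) (ht : t ∈ ball (0 : ℂ) 1), toPP ⟨R t, hRne t ht⟩ = ρ (toPP ⟨Z0 + t • b, hZne t ht⟩) := by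
    intro t ht
    have a1 : Tendsto (fun n => (⟨hh n t, hhne n t ht⟩ : {v : Fin (k + 1) → ℂ // v ≠ 0})) e
        (𝓝 ⟨R t, hRne t ht⟩) := tendsto_subtype_rng.2 (r2 t ht)
    have a2 := (toPP_cont.tendsto _).comp a1
    have a3 := hρ (toPP ⟨Z0 + t • b, hZne t ht⟩)
    have a4 : (fun n => f.map^[n] (toPP ⟨Z0 + t • b, hZne t ht⟩)) =
        toPP ∘ (fun n => (⟨hh n t, hhne n t ht⟩ : {v : Fin (k + 1) → ℂ // v ≠ 0})) := by
      funext n
      obtain ⟨c, hc, hc2⟩ := (l3 n t ht).2.2.2.2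
      rw [map_iter f n (hZne t ht), Function.comp_apply]
      exact (toPP_eq (hhne n t ht) _ c hc2.symm).symm
    rw [a4] at a3
    exact tendsto_nhds_unique a2 a3
  have hRc : ∀ t ∈ ball (0 : ℂ) 1, R t ∈ cone U := by
    intro t ht
    refine ⟨hRne t ht, ?_⟩
    rw [hlim t ht]
    apply hρU
    obtain ⟨h1, h2⟩ := hdisc t (ball_subset_closedBall ht)
    exact h2
  have hu0 : ∀ t ∈ ball (0 : ℂ) 1, u (R t) = 0 := by
    intro t ht
    have a1 : ContinuousAt u (R t) := g1.continuousAt ((cone_open hU.1).mem_nhds (hRc t ht))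
    have a2 : Tendsto (fun n => u (hh n t)) e (𝓝 (u (R t))) := a1.tendsto.comp (r2 t ht)
    have a3 : (fun n => u (hh n t)) = fun _ => (0 : ℝ) := by
      funext n
      exact (l3 n t ht).2.1
    rw [a3] at a2
    exact (tendsto_nhds_unique a2 tendsto_const_nhds)
  have h00 : (0 : ℂ) ∈ ball (0 : ℂ) 1 := mem_ball_self one_pos
  -- the value at zero
  have hR0 : ∃ c : ℂ, c ≠ 0 ∧ R 0 = c • Z0 := by
    have a1 := hlim 0 h00
    have a2 : (toPP ⟨Z0 + (0 : ℂ) • b, hZne 0 h00⟩ : PP k) = toPP ⟨Z0, h0⟩ := by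
      congr 2
      simp
    rw [a2, hfix] at a1
    obtain ⟨c, hc⟩ := (Projectivization.mk_eq_mk_iff' ℂ (R 0) Z0 (hRne 0 h00) h0).1 a1
    refine ⟨c, ?_, hc.symm⟩
    intro hc0
    rw [hc0, zero_smul] at hc
    exact hRne 0 h00 hc.symm
  have hZ0c : Z0 ∈ cone U := by
    have := hdisc 0 (mem_closedBall_self zero_le_one)
    simpa using this
  have hval : Real.log (n2 (R 0)) = Real.log (n2 Z0) - u Z0 := by
    obtain ⟨c, hc, hc2⟩ := hR0
    have a1 := hu0 0 h00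
    rw [hc2, g2 Z0 hZ0c c hc] at a1
    rw [hc2, SMX_n2_smul, Real.log_mul (norm_pos_iff.2 hc).ne' (SMX_n2_pos h0).ne']
    linarith
  have hn2 : ∀ t ∈ ball (0 : ℂ) 1, n2 (R t) ≤ n2 (R 0) := by
    intro t ht
    have a1 := hmax t ht (hZne t ht) (R t) (hRne t ht) (hlim t ht)
    rw [hu0 t ht, sub_zero, ← hval] at a1
    exact (Real.log_le_log_iff (SMX_n2_pos (hRne t ht)) (SMX_n2_pos (hRne 0 h00))).1 a1
  have hconst := SMX_max R r1 hn2 t ht
  have a1 := hlim t ht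
  have a2 := hlim 0 h00
  have a3 : (toPP ⟨Z0 + (0 : ℂ) • b, hZne 0 h00⟩ : PP k) = toPP ⟨Z0, h0⟩ := by
    congr 2
    simp
  rw [a3, hfix] at a2
  rw [← a1, ← a2]
  congr 2

end Pool.Agent.P2
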