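import Pool.Agent.helper83.P2.SpecS0

/-! Row p2:SRH (MP_063734_an): the limit map -/

set_option autoImplicit false

namespace Pool.Agent.P2

open Metric Filter Topology MeasureTheory
open Pool.Agent.helper37.QA

theorem SRH : SRH_stmt := by
  intro Ω _ _ _ f e hf hid
  have hR : Rho f e (fun z => (e.map (fun n => f^[n] z)).lim) := by
    intro z
    have h := (e.map (fun n => f^[n] z)).le_nhds_lim
    rw [Ultrafilter.coe_map] at h
    exact h
  generalize (fun z => (e.map (fun n => f^[n] z)).lim) = ρ at hR
  refine ⟨ρ, hR, ?_, ?_, ?_, ?_⟩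
  · intro z
    have h : Tendsto (fun m => f^[m] (ρ z)) e (𝓝 (ρ z)) := by
      intro V hV
      obtain ⟨W, hW, hWc, hWV⟩ := exists_mem_nhds_isClosed_subset hV
      have hA : {n | f^[n] z ∈ W} ∈ e := hR z hW
      have hB := hid.2 _ hA
      rw [Filter.mem_map]
      refine Filter.mem_of_superset (Ultrafilter.mem_coe.2 hB) ?_
      intro m hm
      apply hWV
      have hc : Tendsto (fun n => f^[m] (f^[n] z)) e (𝓝 (f^[m] (ρ z))) :=
        ((hf.iterate m).tendsto (ρ z)).comp (hR z)
      refine hWc.mem_of_tendsto hc ?_
      refine Filter.mem_of_superset (Ultrafilter.mem_coe.2 hm) ?_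
      intro n hn
      have h1 : f^[m + n] z ∈ W := hn
      rw [Function.iterate_add_apply] at h1
      exact h1
    exact tendsto_nhds_unique (hR (ρ z)) h
  · intro z
    have h1 := hR (f z)
    have h2 : Tendsto (fun n => f^[n] (f z)) e (𝓝 (f (ρ z))) := by
      have h3 := (hf.tendsto (ρ z)).comp (hR z)
      have h4 : (fun n => f^[n] (f z)) = f ∘ (fun n => f^[n] z) := by
        funext n
        rw [Function.comp_apply, ← Function.iterate_succ_apply, Function.iterate_succ_apply']
      rw [h4]
      exact h3
    exact tendsto_nhds_unique h1 h2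
  · intro K hK hfK z hz
    refine hK.mem_of_tendsto (hR z) (Filter.Eventually.of_forall ?_)
    intro n
    induction n with
    | zero => exact hz
    | succ n ih =>
      rw [Function.iterate_succ_apply']
      exact hfK ⟨_, ih, rfl⟩
  · intro U hU z hz
    have hit : ∀ n, f^[n] z ∈ U := by
      intro n
      induction n with
      | zero => exact hz
      | succ n ih =>
        rw [Function.iterate_succ_apply']
        exact hU ⟨_, subset_closure ih, rfl⟩
    have hcl : IsClosed (f '' closure U) := (isClosed_closure.isCompact.image hf).isClosed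
    refine hcl.mem_of_tendsto (hR z) ?_
    refine Filter.mem_of_superset (Ultrafilter.mem_coe.2 hid.1) ?_
    intro n hn
    obtain ⟨j, rfl⟩ : ∃ j, n = j + 1 := ⟨n - 1, by have : 0 < n := hn; omega⟩
    refine ⟨f^[j] z, subset_closure (hit j), ?_⟩
    rw [Function.iterate_succ_apply']

end Pool.Agent.P2
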